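import Pool.Agent.helper88.PF.Spec

set_option autoImplicit false

namespace PF

/-- two consecutive prefixes -/
theorem CBL_app (q₁ q₂ : List Bool) (M : (ℕ → List Prop) → Prop) (c : ℕ → List Prop) :
    Qm (q₁ ++ q₂) M c ↔ Qm q₁ (fun c' => Qm q₂ M c') c := by
  induction q₁ generalizing c with
  | nil => exact Iff.rfl
  | cons b q ih =>
    cases b with
    | true =>
      show (∀ x : ℕ → Prop, CE x → Qm (q ++ q₂) M (fun p => x p :: c p)) ↔
        (∀ x : ℕ → Prop, CE x → Qm q (fun c' => Qm q₂ M c') (fun p => x p :: c p))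
      exact forall_congr' fun x => imp_congr Iff.rfl (ih _)
    | false =>
      show (∃ x : ℕ → Prop, CE x ∧ Qm (q ++ q₂) M (fun p => x p :: c p)) ↔
        (∃ x : ℕ → Prop, CE x ∧ Qm q (fun c' => Qm q₂ M c') (fun p => x p :: c p))
      exact exists_congr fun x => and_congr Iff.rfl (ih _)

/-- the context can be moved to the matrix -/
theorem CBL_ctx (q : List Bool) (M : (ℕ → List Prop) → Prop) (c c₀ : ℕ → List Prop) :
    Qm q M (fun p => c p ++ c₀ p) ↔ Qm q (fun c' => M (fun p => c' p ++ c₀ p)) c := by
  induction q generalizing c with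
  | nil => exact Iff.rfl
  | cons b q ih =>
    cases b with
    | true =>
      show (∀ x : ℕ → Prop, CE x → Qm q M (fun p => x p :: (c p ++ c₀ p))) ↔
        (∀ x : ℕ → Prop, CE x → Qm q (fun c' => M (fun p => c' p ++ c₀ p)) (fun p => x p :: c p))
      exact forall_congr' fun x => imp_congr Iff.rfl (ih (fun p => x p :: c p))
    | false =>
      show (∃ x : ℕ → Prop, CE x ∧ Qm q M (fun p => x p :: (c p ++ c₀ p))) ↔
        (∃ x : ℕ → Prop, CE x ∧ Qm q (fun c' => M (fun p => c' p ++ c₀ p)) (fun p => x p :: c p))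
      exact exists_congr fun x => and_congr Iff.rfl (ih (fun p => x p :: c p))

/-- the matrix matters only for contexts of the right length -/
theorem CBL_congr (q : List Bool) (M M' : (ℕ → List Prop) → Prop) (n : ℕ) (c : ℕ → List Prop)
    (hc : ∀ p, (c p).length = n)
    (h : ∀ c' : ℕ → List Prop, (∀ p, (c' p).length = n + q.length) → (M c' ↔ M' c')) :
    Qm q M c ↔ Qm q M' c := by
  induction q generalizing c n with
  | nil =>
    refine h c fun p => ?_
    rw [hc p]
    simp
  | cons b q ih =>
    have hq : ∀ x : ℕ → Prop, (Qm q M (fun p => x p :: c p) ↔ Qm q M' (fun p => x p :: c p)) := by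
      intro x
      refine ih (n + 1) _ (fun p => ?_) fun c' hc' => h c' fun p => ?_
      · rw [List.length_cons, hc p]
      · rw [hc' p, List.length_cons]
        omega
    cases b with
    | true =>
      show (∀ x : ℕ → Prop, CE x → Qm q M (fun p => x p :: c p)) ↔
        (∀ x : ℕ → Prop, CE x → Qm q M' (fun p => x p :: c p))
      exact forall_congr' fun x => imp_congr Iff.rfl (hq x)
    | false =>
      show (∃ x : ℕ → Prop, CE x ∧ Qm q M (fun p => x p :: c p)) ↔
        (∃ x : ℕ → Prop, CE x ∧ Qm q M' (fun p => x p :: c p))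
      exact exists_congr fun x => and_congr Iff.rfl (hq x)

theorem CBL_ofFn (r : ℕ) (z : Fin (r + 1) → Prop) (l : List Prop) :
    List.ofFn z ++ l = List.ofFn (fun i : Fin r => z i.castSucc) ++ (z (Fin.last r) :: l) := by
  rw [List.ofFn_succ', List.concat_eq_append, List.append_assoc]
  rfl

theorem CBL_snoc (r : ℕ) (z : Fin r → Prop) (x : Prop) (l : List Prop) :
    List.ofFn (Fin.snoc z x : Fin (r + 1) → Prop) ++ l = List.ofFn z ++ (x :: l) := by
  rw [CBL_ofFn]
  simp only [Fin.snoc_castSucc, Fin.snoc_last]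

theorem CBL_zero (hACL : ACL_stmt) (z : ℕ → Fin 0 → Prop) : CE z :=
  (hACL.2.2.2.2.2.2 Prop 0 z).2 fun i => i.elim0

theorem CBL_ce (hACL : ACL_stmt) (r : ℕ) (z : ℕ → Fin r → Prop) (x : ℕ → Prop) (hz : CE z)
    (hx : CE x) : CE (fun p => (Fin.snoc (z p) (x p) : Fin (r + 1) → Prop)) := by
  refine (hACL.2.2.2.2.2.2 Prop (r + 1) _).2 fun i => ?_
  induction i using Fin.lastCases with
  | last =>
    simp only [Fin.snoc_last]
    exact hx
  | cast i =>
    simp only [Fin.snoc_castSucc]
    exact (hACL.2.2.2.2.2.2 Prop r z).1 hz i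

theorem CBL_parts (hACL : ACL_stmt) (r : ℕ) (z : ℕ → Fin (r + 1) → Prop) (hz : CE z) :
    CE (fun p => fun i : Fin r => z p i.castSucc) ∧ CE (fun p => z p (Fin.last r)) := by
  have h := (hACL.2.2.2.2.2.2 Prop (r + 1) z).1 hz
  exact ⟨(hACL.2.2.2.2.2.2 Prop r _).2 fun i => h i.castSucc, h (Fin.last r)⟩

/-- a block of universal quantifiers -/
theorem CBL_all (hACL : ACL_stmt) (r : ℕ) (q : List Bool) (M : (ℕ → List Prop) → Prop)
    (c : ℕ → List Prop) :
    Qm (List.replicate r true ++ q) M c ↔
      ∀ z : ℕ → Po.bits r, CE z → Qm q M (fun p => List.ofFn (z p) ++ c p) := by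
  induction r generalizing c with
  | zero =>
    constructor
    · intro h z _
      have e : (fun p => List.ofFn (z p) ++ c p) = c := by
        funext p
        rw [List.ofFn_zero, List.nil_append]
      rw [e]
      exact h
    · intro h
      have h1 := h (fun _ i => i.elim0) (CBL_zero hACL _)
      have e : (fun p => List.ofFn ((fun _ i => i.elim0 : ℕ → Fin 0 → Prop) p) ++ c p) = c := by
        funext p
        rw [List.ofFn_zero, List.nil_append]
      rw [e] at h1
      exact h1
  | succ r ih =>
    have e0 : Qm (List.replicate (r + 1) true ++ q) M c ↔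
        ∀ x : ℕ → Prop, CE x → Qm (List.replicate r true ++ q) M (fun p => x p :: c p) := Iff.rfl
    rw [e0]
    constructor
    · intro h z hz
      obtain ⟨h1, h2⟩ := CBL_parts hACL r z hz
      have h3 := (ih _).1 (h _ h2) _ h1
      have e : (fun p => List.ofFn (z p) ++ c p) =
          (fun p => List.ofFn (fun i : Fin r => z p i.castSucc) ++ (z p (Fin.last r) :: c p)) := by
        funext p
        exact CBL_ofFn r (z p) (c p)
      rw [e]
      exact h3
    · intro h x hx
      rw [ih]
      intro z hz
      have h3 := h _ (CBL_ce hACL r z x hz hx)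
      have e : (fun p => List.ofFn (Fin.snoc (z p) (x p) : Fin (r + 1) → Prop) ++ c p) =
          (fun p => List.ofFn (z p) ++ (x p :: c p)) := by
        funext p
        exact CBL_snoc r (z p) (x p) (c p)
      rw [e] at h3
      exact h3

/-- a block of existential quantifiers -/
theorem CBL_ex (hACL : ACL_stmt) (r : ℕ) (q : List Bool) (M : (ℕ → List Prop) → Prop)
    (c : ℕ → List Prop) :
    Qm (List.replicate r false ++ q) M c ↔
      ∃ z : ℕ → Po.bits r, CE z ∧ Qm q M (fun p => List.ofFn (z p) ++ c p) := by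
  induction r generalizing c with
  | zero =>
    constructor
    · intro h
      refine ⟨fun _ i => i.elim0, CBL_zero hACL _, ?_⟩
      have e : (fun p => List.ofFn ((fun _ i => i.elim0 : ℕ → Fin 0 → Prop) p) ++ c p) = c := by
        funext p
        rw [List.ofFn_zero, List.nil_append]
      rw [e]
      exact h
    · rintro ⟨z, _, h⟩
      have e : (fun p => List.ofFn (z p) ++ c p) = c := by
        funext p
        rw [List.ofFn_zero, List.nil_append]
      rw [e] at h
      exact h
  | succ r ih =>
    have e0 : Qm (List.replicate (r + 1) false ++ q) M c ↔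
        ∃ x : ℕ → Prop, CE x ∧ Qm (List.replicate r false ++ q) M (fun p => x p :: c p) := Iff.rfl
    rw [e0]
    constructor
    · rintro ⟨x, hx, h⟩
      obtain ⟨z, hz, h3⟩ := (ih _).1 h
      refine ⟨_, CBL_ce hACL r z x hz hx, ?_⟩
      have e : (fun p => List.ofFn (Fin.snoc (z p) (x p) : Fin (r + 1) → Prop) ++ c p) =
          (fun p => List.ofFn (z p) ++ (x p :: c p)) := by
        funext p
        exact CBL_snoc r (z p) (x p) (c p)
      rw [e]
      exact h3
    · rintro ⟨z, hz, h⟩
      obtain ⟨h1, h2⟩ := CBL_parts hACL r z hz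
      refine ⟨_, h2, (ih _).2 ⟨_, h1, ?_⟩⟩
      have e : (fun p => List.ofFn (z p) ++ c p) =
          (fun p => List.ofFn (fun i : Fin r => z p i.castSucc) ++ (z p (Fin.last r) :: c p)) := by
        funext p
        exact CBL_ofFn r (z p) (c p)
      rw [e] at h
      exact h

theorem CBL_getD (r : ℕ) (z : Fin r → Prop) (i : ℕ) : (List.ofFn z).getD i False = bx z i := by
  unfold bx
  by_cases hi : i < r
  · rw [List.getD_eq_getElem _ _ (by rw [List.length_ofFn]; exact hi), List.getElem_ofFn]
    exact propext ⟨fun h => ⟨hi, h⟩, fun ⟨_, h⟩ => h⟩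
  · rw [List.getD_eq_default _ _ (by rw [List.length_ofFn]; omega)]
    exact propext ⟨fun h => h.elim, fun ⟨h, _⟩ => hi h⟩

theorem CBL_stt (k m r : ℕ) (z : Fin r → Prop) (b : List Prop) (x : Fin m → Prop)
    (w : Fin k → Prop) (i : ℕ) :
    (List.ofFn z ++ (b ++ (List.ofFn x ++ (List.ofFn w ++ [])))).getD i False =
      stt r b.length m (bx z) b (bx x) (bx w) i := by
  unfold stt
  split_ifs with h1 h2 h3
  · rw [List.getD_append _ _ _ _ (by rw [List.length_ofFn]; exact h1), CBL_getD]
  · rw [List.getD_append_right _ _ _ _ (by rw [List.length_ofFn]; omega), List.length_ofFn,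
      List.getD_append _ _ _ _ (by omega)]
  · rw [List.getD_append_right _ _ _ _ (by rw [List.length_ofFn]; omega), List.length_ofFn,
      List.getD_append_right _ _ _ _ (by omega),
      List.getD_append _ _ _ _ (by rw [List.length_ofFn]; omega), CBL_getD]
  · rw [List.getD_append_right _ _ _ _ (by rw [List.length_ofFn]; omega), List.length_ofFn,
      List.getD_append_right _ _ _ _ (by omega),
      List.getD_append_right _ _ _ _ (by rw [List.length_ofFn]; omega), List.length_ofFn,
      List.append_nil, CBL_getD]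

theorem CBL (hACL : ACL_stmt) : CBL_stmt := by
  intro k m q r cl
  rw [List.append_assoc, List.append_assoc, CBL_ex hACL]
  refine exists_congr fun w => and_congr Iff.rfl ?_
  rw [CBL_all hACL]
  unfold Smid
  refine forall_congr' fun x => imp_congr Iff.rfl ?_
  rw [CBL_app]
  have e1 := CBL_ctx q.reverse (fun c' => Qm (List.replicate r true)
    (fun c => ClsAE cl (fun p i => (c p).getD i False)) c') (fun _ => [])
    (fun p => List.ofFn (x p) ++ (List.ofFn (w p) ++ []))
  simp only [List.nil_append] at e1
  refine e1.trans ?_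
  refine CBL_congr q.reverse _ _ 0 (fun _ => []) (fun _ => rfl) fun c' hc' => ?_
  have e2 := CBL_all hACL r [] (fun c => ClsAE cl (fun p i => (c p).getD i False))
    (fun p => c' p ++ (List.ofFn (x p) ++ (List.ofFn (w p) ++ [])))
  rw [List.append_nil] at e2
  refine e2.trans ?_
  refine forall_congr' fun z => imp_congr Iff.rfl ?_
  have e3 : (fun (p i : ℕ) => (List.ofFn (z p) ++ (c' p ++ (List.ofFn (x p) ++ (List.ofFn (w p) ++ [])))).getD i False) =
      (fun p => stt r q.length m (bx (z p)) (c' p) (bx (x p)) (bx (w p))) := by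
    funext p i
    rw [CBL_stt, hc' p, List.length_reverse, Nat.zero_add]
  show ClsAE cl (fun (p i : ℕ) => (List.ofFn (z p) ++ (c' p ++ (List.ofFn (x p) ++ (List.ofFn (w p) ++ [])))).getD i False) ↔ _
  rw [e3]

end PF
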