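import Pool.Agent.helper88.PF.Spec

set_option autoImplicit false

namespace PF

/-- the value of a term as a Boolean -/
def DST_evb (s : ℕ → Bool) : Tm → Bool
  | .var i => s i
  | .bot => false
  | .top => true
  | .sup a b => DST_evb s a || DST_evb s b
  | .inf a b => DST_evb s a && DST_evb s b

theorem DST_evb_iff (s : ℕ → Bool) (t : Tm) :
    DST_evb s t = true ↔ t.ev (fun i => s i = true) := by
  induction t with
  | var i => exact Iff.rfl
  | bot => exact ⟨fun h => by simp [DST_evb] at h, fun h => h.elim⟩
  | top => exact ⟨fun _ => trivial, fun _ => rfl⟩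
  | sup a b iha ihb =>
    show (DST_evb s a || DST_evb s b) = true ↔ (a.ev (fun i => s i = true)) ∨ (b.ev (fun i => s i = true))
    rw [Bool.or_eq_true, iha, ihb]
  | inf a b iha ihb =>
    show (DST_evb s a && DST_evb s b) = true ↔ (a.ev (fun i => s i = true)) ∧ (b.ev (fun i => s i = true))
    rw [Bool.and_eq_true, iha, ihb]

theorem DST_fold (s : ℕ → Bool) (t : Tm) (st : List Bool) :
    t.str.foldl (evStep s) st = DST_evb s t :: st := by
  induction t generalizing st with
  | var i =>
    show evStep s st (8 + i) = s i :: st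
    rw [Nat.add_comm 8 i]
    rfl
  | bot => rfl
  | top => rfl
  | sup a b iha ihb =>
    show (a.str ++ b.str ++ [2]).foldl (evStep s) st = _
    rw [List.foldl_append, List.foldl_append, iha, ihb]
    rfl
  | inf a b iha ihb =>
    show (a.str ++ b.str ++ [3]).foldl (evStep s) st = _
    rw [List.foldl_append, List.foldl_append, iha, ihb]
    rfl

/-- terms replaced by their strings -/
def DST_mp (X : List Cla) : List SCla :=
  X.map (fun d => (d.1.map (fun h => (h.1.str, h.2.str)), d.2.map (fun h => (h.1.str, h.2.str))))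

theorem DST_mp_append (X Y : List Cla) : DST_mp (X ++ Y) = DST_mp X ++ DST_mp Y :=
  List.map_append

theorem DST_mp_dist (X Y : List Cla) : DST_mp (dist X Y) = dist (DST_mp X) (DST_mp Y) := by
  unfold DST_mp dist
  rw [List.map_flatMap, List.flatMap_map]
  refine List.flatMap_congr fun c _ => ?_
  rw [List.map_map, List.map_map]
  refine List.map_congr_left fun d _ => ?_
  simp only [Function.comp, List.map_append]

theorem DST_tm (t : Tm) (st : List (List ℕ × List SCla × List SCla)) :
    t.str.foldl cnfStep st = (t.str, [], []) :: st := by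
  induction t generalizing st with
  | var i =>
    show cnfStep st (8 + i) = ([8 + i], [], []) :: st
    unfold cnfStep
    rw [if_neg (by omega), if_neg (by omega), if_neg (by omega), if_neg (by omega),
      if_neg (by omega), if_neg (by omega)]
  | bot => rfl
  | top => rfl
  | sup a b iha ihb =>
    show (a.str ++ b.str ++ [2]).foldl cnfStep st = _
    rw [List.foldl_append, List.foldl_append, iha, ihb]
    rfl
  | inf a b iha ihb =>
    show (a.str ++ b.str ++ [3]).foldl cnfStep st = _
    rw [List.foldl_append, List.foldl_append, iha, ihb]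
    rfl

theorem DST_fm (φ : Fm) (st : List (List ℕ × List SCla × List SCla)) :
    φ.str.foldl cnfStep st = ([], DST_mp (φ.cnf true), DST_mp (φ.cnf false)) :: st := by
  induction φ generalizing st with
  | eq a b =>
    show (a.str ++ b.str ++ [4]).foldl cnfStep st = _
    rw [List.foldl_append, List.foldl_append, DST_tm, DST_tm]
    rfl
  | neg a ih =>
    show (a.str ++ [5]).foldl cnfStep st = _
    rw [List.foldl_append, ih]
    rfl
  | and a b iha ihb =>
    show (a.str ++ b.str ++ [6]).foldl cnfStep st = ([], DST_mp (a.cnf true ++ b.cnf true),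
      DST_mp (dist (a.cnf false) (b.cnf false))) :: st
    rw [List.foldl_append, List.foldl_append, iha, ihb, DST_mp_append, DST_mp_dist]
    rfl
  | or a b iha ihb =>
    show (a.str ++ b.str ++ [7]).foldl cnfStep st = ([], DST_mp (dist (a.cnf true) (b.cnf true)),
      DST_mp (a.cnf false ++ b.cnf false)) :: st
    rw [List.foldl_append, List.foldl_append, iha, ihb, DST_mp_append, DST_mp_dist]
    rfl

/-- reading a string with a stack machine -/
def DST_bin (f : Tm → Tm → Tm ⊕ Fm) : List (Tm ⊕ Fm) → List (Tm ⊕ Fm)
  | .inl b :: .inl a :: st => f a b :: st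
  | st => st

def DST_binF (f : Fm → Fm → Fm) : List (Tm ⊕ Fm) → List (Tm ⊕ Fm)
  | .inr b :: .inr a :: st => .inr (f a b) :: st
  | st => st

def DST_un (f : Fm → Fm) : List (Tm ⊕ Fm) → List (Tm ⊕ Fm)
  | .inr a :: st => .inr (f a) :: st
  | st => st

def DST_rd (st : List (Tm ⊕ Fm)) : ℕ → List (Tm ⊕ Fm)
  | 0 => .inl .bot :: st
  | 1 => .inl .top :: st
  | 2 => DST_bin (fun a b => .inl (.sup a b)) st
  | 3 => DST_bin (fun a b => .inl (.inf a b)) st
  | 4 => DST_bin (fun a b => .inr (.eq a b)) st
  | 5 => DST_un .neg st
  | 6 => DST_binF .and st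
  | 7 => DST_binF .or st
  | (n + 8) => .inl (.var n) :: st

theorem DST_rdt (t : Tm) (st : List (Tm ⊕ Fm)) : t.str.foldl DST_rd st = .inl t :: st := by
  induction t generalizing st with
  | var i =>
    show DST_rd st (8 + i) = _
    rw [Nat.add_comm 8 i]
    rfl
  | bot => rfl
  | top => rfl
  | sup a b iha ihb =>
    show (a.str ++ b.str ++ [2]).foldl DST_rd st = _
    rw [List.foldl_append, List.foldl_append, iha, ihb]
    rfl
  | inf a b iha ihb =>
    show (a.str ++ b.str ++ [3]).foldl DST_rd st = _
    rw [List.foldl_append, List.foldl_append, iha, ihb]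
    rfl

theorem DST_rdf (φ : Fm) (st : List (Tm ⊕ Fm)) : φ.str.foldl DST_rd st = .inr φ :: st := by
  induction φ generalizing st with
  | eq a b =>
    show (a.str ++ b.str ++ [4]).foldl DST_rd st = _
    rw [List.foldl_append, List.foldl_append, DST_rdt, DST_rdt]
    rfl
  | neg a ih =>
    show (a.str ++ [5]).foldl DST_rd st = _
    rw [List.foldl_append, ih]
    rfl
  | and a b iha ihb =>
    show (a.str ++ b.str ++ [6]).foldl DST_rd st = _
    rw [List.foldl_append, List.foldl_append, iha, ihb]
    rfl
  | or a b iha ihb =>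
    show (a.str ++ b.str ++ [7]).foldl DST_rd st = _
    rw [List.foldl_append, List.foldl_append, iha, ihb]
    rfl

theorem DST : DST_stmt := by
  refine ⟨?_, ?_, ?_⟩
  · intro t s
    unfold evS
    rw [DST_fold]
    exact DST_evb_iff s t
  · intro φ
    unfold cnfS
    rw [DST_fm]
    rfl
  · intro φ ψ h
    have h1 := DST_rdf φ []
    rw [h, DST_rdf ψ []] at h1
    have h2 : (Sum.inr ψ : Tm ⊕ Fm) = Sum.inr φ := (List.cons.inj h1).1
    exact (Sum.inr.inj h2).symm

end PF
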